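import Pool.Agent.W2helper27.GT.Main

/-!
# The generalized Tate conjecture for products of powers of ordinary abelian varieties of dimension at
# most four over finite fields

Let `A j` be finitely many ordinary abelian varieties of dimension at most `4` over a finite field with
`q = p ^ a` elements: simple or not, with arbitrary endomorphism algebras and arbitrary CM fields. If
there is more than one, we assume that their slopes are independent (for instance, that the splitting
fields of their Frobenius polynomials are linearly disjoint). We prove that the generalized Tate
conjecture for the `A j` implies the generalized Tate conjecture for all products of powers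
`∏ j, A j ^ n j`, in all degrees `i` and all coniveaus `ν`, over all finite extensions of the field. For
one `A` of dimension at most four (no further assumption) this is the statement that the conjecture for
`A` implies the conjecture for all powers `A ^ n`.

More precisely, let `N j t c` be the space of the classes in `H^t(A j)` of geometric coniveau at least
`c`, and assume that it contains every Frobenius stable `U` with `U(c)` effective. Then every subspace
`U` of the cohomology in degree `i` of the product that is stable under the Frobenius endomorphism of a
finite extension, and whose twist `U(ν)` is effective, is spanned by products of pull-backs: each product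
has factors `(h b)^*(φ b)`, where `h b` is a homomorphism to some `A j` and `φ b` is in `N j (t b) (c b)`,
and `∑ b, c b ≥ ν`. So `U` has geometric coniveau at least `ν`.

Idea of the proof. The eigenvalues `α x` of Frobenius on `A j` are labelled by `Fin g ⊕ Fin g`, where
`swap` is the complex conjugation. By ordinarity every place of `ℚ̄` above `p` gives the set `N` of the
labels of the eigenvalues that are not units, which contains exactly one label of each conjugate pair.
For a multiset `S` of labels, the number `(∏ α) / q ^ ν` is an algebraic integer if and only if `ν` is at
most the number of the elements of `S` in `N`, for all places. We show that `S` is a union of sets `S b`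
(of different labels) whose numbers `ν b` add up to at least `ν`: this is a statement on the family of
the sets `N`, which uses that the Galois group acts transitively on this family, and which holds for
dimension at most four only (it fails in dimension five for the reduction of the Jacobian of
`y ^ 2 = x ^ 11 + 1` modulo `p ≡ 1 mod 11`). A set `S b` of different labels gives a class on `A j`.
-/

set_option autoImplicit false

namespace Pool.Agent.Results.MP_8abef2_ag.PowersDimFour

open Module Polynomial Pool.Agent.W2helper27.GT

/-- Let `F j` be the Frobenius endomorphisms of the Tate modules `V j` of ordinary abelian varieties
`A j` of dimension `g j ≤ 4` over the field with `p ^ a` elements, with independent slopes. If the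
generalized Tate conjecture holds for all the `A j`, then it holds for all products of powers
`∏ j, A j ^ n j`: the effective subspaces `U` of the cohomology in degree `i`, over any finite extension,
are spanned by products of pull-backs of classes on the `A j` of the right coniveaus. -/
theorem result {k : Type} [Field k] [IsAlgClosed k] [CharZero k] {J : Type} [Finite J]
    {V : J → Type} [∀ j, AddCommGroup (V j)] [∀ j, Module k (V j)] [∀ j, FiniteDimensional k (V j)]
    {p a : ℕ} [Fact p.Prime] {g : J → ℕ} (hg : ∀ j, g j ≤ 4) (ha : 0 < a) {P : J → ℤ[X]}
    {F : ∀ j, Module.End k (V j)} (hF : ∀ j, IsOrdinaryFrobenius p a (g j) (P j) (F j))
    (hind : IndependentSlopes p P) {N : ∀ j, ∀ t : ℕ, ℕ → Submodule k (V j [⋀^Fin t]→ₗ[k] k)}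
    (hN : ∀ j, GTC (p ^ a) (F j) (N j)) (n : J → ℕ) (i ν s : ℕ) (hs : 0 < s)
    (U : Submodule k ((∀ j, Fin (n j) → V j) [⋀^Fin i]→ₗ[k] k))
    (hU : IsEffective ((p ^ a) ^ s) ((frob F n) ^ s) i ν U) :
    U ≤ Submodule.span k (products F N (frob F n) i ν) :=
  powers hg ha hF hind hN n i ν s hs U hU

end Pool.Agent.Results.MP_8abef2_ag.PowersDimFour
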