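import Pool.Agent.W2helper27.K3.Main

/-!
# The generalized Tate conjecture for powers of varieties of ordinary K3 type

Let `X` be a smooth projective variety over an algebraic closure of the field with `p` elements which
is of ordinary K3 type in degree `2 d` (`IsOrdinaryK3Type`): there is no cohomology of odd degree, the
slopes of Frobenius on `H^(2 j)(X)`, `j ≠ d`, are all equal to `j`, and the slopes on `H^(2 d)(X)` are
`d - 1`, once, and at least `d` otherwise. Examples are the ordinary K3 surfaces, the ordinary
surfaces with `p_g = 1` and `q = 0` (`d = 1`), and the ordinary cubic fourfolds (`d = 2`). Let `r` be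
the number of the Frobenius eigenvalues on `H^(2 d)(X)` which are not the product of `q ^ d` and a root
of unity, let `Z` be any smooth projective variety, and `N = max (2, (r / 2) max (1, 2 dim Z))`.

**Theorem.** (0) The number `r` is smaller than the Betti number `b_(2 d)(X)`.

(1) Let `n + 1 > N`. Every Frobenius stable subspace `V` of `H^i(Z × X ^ (n + 1))` such that `V(c)` is
effective is contained in the span of exterior products of classes in Frobenius stable subspaces
`V'` of `H^i'(Z × X ^ (a + 1))` and `V''` of `H^i''(X ^ (b + 1))` with `V'(c')` and `V''(c'')` effective,
where `a + 1` and `b + 1` are the sizes of the two parts of a partition of the set of the factors `X`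
into two nonempty parts, `i' + i'' = i` and `c' + c'' = c`.

(2) If the generalized Tate conjecture holds for the single variety `Z × X ^ N`, then it holds for
`Z × X ^ n` for all `n`, and for all varieties which are dominated by these varieties.

For an ordinary K3 surface `X` the generalized Tate conjecture for `X ^ 10` implies the conjecture
for all powers of `X`, since `r ≤ 21`; for an ordinary cubic fourfold one can take `X ^ 11`. For
arbitrary `X` the starting file `BoundedGeneration` has such a theorem with a much larger number of
factors (a multiple of `(b + 1)! (2 D b) ^ b`, `b` the total Betti number). For `Z` a point the number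
`r / 2` is optimal in (1): if `α` runs through `r / 2` transcendental eigenvalues which contain no
pair `α`, `q ^ (2 d) / α`, then the product of eigenvectors in `H^(2 d)(X) ^ ⊗ (r / 2)` has the coniveau
`d r / 2 - 1`, while each factor and each partial product of `a` factors only has the coniveau
`d a - 1`. (These remarks are not formalised.)

The proof. Let `K` be the field of the Frobenius eigenvalues. For a `p`-adic place of `K` at most one
eigenvalue on `H^(2 d)(X)` has the slope `d - 1`; its complex conjugate has the slope `d + 1`, and all
others have the slope `d`. By Kronecker's theorem each eigenvalue which is not `q ^ d` times a root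
of unity has the slope `d - 1` at some place; so these `r` eigenvalues are simple. A monomial in
generalised eigenvectors which contains an eigenvector of constant slope, or two eigenvectors whose
eigenvalues are complex conjugate, splits. Otherwise let `c_l` be the multiplicities. If
`∑ c_l > (r / 2) max (1, 2 dim Z)`, then one `c_l` is larger than `max (1, 2 dim Z)`, and so the
effective coniveau `c` is at most `d ∑ c_l - 1`. The set of this `l` and of all other `l` for which one
of the inequalities between `c` and the slopes is nearly sharp is the support of a monomial with
exponents one, of coniveau `d |B| - 1`, which can be split off. The passage between subspaces and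
generalised eigenvectors, and the compatibility of exterior products with the coniveau filtration
are in the library `N204/GT` of the starting files.
-/

set_option autoImplicit false

open CategoryTheory AlgebraicGeometry

universe u v

namespace Pool.Agent.Results.MP_8abef2_ag.PowersOfK3Type

open Pool.Agent.H914 Pool.Agent.H914.VarClass Pool.Agent.H914.VarClass.Obj
  Pool.Agent.H914.WeilCohomology Pool.Agent.W534 Pool.Agent.R940 Pool.Agent.N204.GT
  Pool.Agent.W2helper27.K3
open Pool.Agent.Y163 (pw)

/-- Bounded generation of the effective twists of Frobenius stable subspaces and reduction of the
generalized Tate conjecture for the products `Z × X ^ n` to the case of `N = k3Power Φ σ Z X d`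
factors, if `X` is of ordinary K3 type in degree `2 d`. -/
theorem result {k : Type u} [Field k] {𝒱 : VarClass k} {ops : CycleOps 𝒱}
    {W : WeilCohomology.{u, v} ops} {p : ℕ} [Fact p.Prime] (Φ : FrobSystem W p) (σ : W.K →+* ℂ)
    (hW : ∀ Y, WeilConjectures Φ σ Y) (X Z : 𝒱.Obj) (hX : HasBigDivisor ops X)
    (hZ : HasBigDivisor ops Z) (d : ℕ) (hK : IsOrdinaryK3Type Φ σ X d) :
    transcendentalRank Φ σ X d < W.betti X (2 * d) ∧
    (∀ n, k3Power Φ σ Z X d < n + 1 → NoNewEffective Φ Z X n) ∧
    (GTC Φ (Z.prod (pw X (k3Power Φ σ Z X d - 1))) → GTCForAllPowers Φ Z X) :=
  main hW hX hZ hK

end Pool.Agent.Results.MP_8abef2_ag.PowersOfK3Type
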